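import Pool.Agent.Helper86.UQ.St5

/-!
Project UQ, module BDD: bounds.
-/

set_option autoImplicit false

open Finset

namespace Pool.Agent.Helper22.UQ

open Classical Pool.Agent.Helper30.RCU Pool.Agent.Helper1.UQ Pool.Agent.Helper86.UQ

universe u

lemma oe_nonneg {ι : Type u} (a : ι) (ω : Finset ι) : 0 ≤ oe a ω := by
  unfold oe; split_ifs <;> norm_num

lemma oe_le_one {ι : Type u} (a : ι) (ω : Finset ι) : oe a ω ≤ 1 := by
  unfold oe; split_ifs <;> norm_num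

lemma ex_unit {V ι : Type u} (φ : ι → Sym2 V) {p : ι → ℝ} {q : ℝ} (hp : ∀ e, 0 ≤ p e)
    (hp1 : ∀ e, p e ≤ 1) (hq : 1 ≤ q) (E : Finset ι) (a : ι) :
    0 ≤ ex φ p q E (oe a) ∧ ex φ p q E (oe a) ≤ 1 := by
  constructor
  · exact ex_nonneg hp hp1 hq E (oe_nonneg a)
  · have := ex_le (φ := φ) hp hp1 hq E (oe_le_one a)
    rwa [ex_const hp hp1 hq] at this

lemma pr_nonneg {V : Type u} (G : SimpleGraph V) {p t : ℝ} (hp : 0 ≤ p) (ht : 0 ≤ t) :
    ∀ e, 0 ≤ pr G p t e := by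
  rintro (e | e)
  · exact hp
  · exact ht

lemma pr_le_one {V : Type u} (G : SimpleGraph V) {p t : ℝ} (hp : p ≤ 1) (ht : t ≤ 1) :
    ∀ e, pr G p t e ≤ 1 := by
  rintro (e | e)
  · exact hp
  · exact ht

theorem hBDD : StBDD.{u} := by
  intro V G p t q hp hp1 ht ht1 hq e
  have hf : ∀ I : Finset V, 0 ≤ fI G p q I e ∧ fI G p q I e ≤ 1 := fun I =>
    ex_unit _ (pr_nonneg G hp le_rfl) (pr_le_one G hp1 zero_le_one) hq _ _
  have hw : ∀ I : Finset V, 0 ≤ wI G p q I e ∧ wI G p q I e ≤ 1 := fun I =>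
    ex_unit _ (pr_nonneg G hp le_rfl) (pr_le_one G hp1 zero_le_one) hq _ _
  have hh : ∀ I : Finset V, 0 ≤ hI G p t q I e ∧ hI G p t q I e ≤ 1 := fun I =>
    ex_unit _ (pr_nonneg G hp ht) (pr_le_one G hp1 ht1) hq _ _
  have bf : BddAbove (Set.range fun I : Finset V => fI G p q I e) := by
    refine ⟨1, ?_⟩
    rintro _ ⟨I, rfl⟩
    exact (hf I).2
  have bw : BddBelow (Set.range fun I : Finset V => wI G p q I e) := by
    refine ⟨0, ?_⟩
    rintro _ ⟨I, rfl⟩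
    exact (hw I).1
  have bh : BddBelow (Set.range fun I : Finset V => hI G p t q I e) := by
    refine ⟨0, ?_⟩
    rintro _ ⟨I, rfl⟩
    exact (hh I).1
  have f1 : ∀ I : Finset V, fI G p q I e ≤ f8 G p q e := fun I => le_ciSup bf I
  have w1 : ∀ I : Finset V, w8 G p q e ≤ wI G p q I e := fun I => ciInf_le bw I
  have h1 : ∀ I : Finset V, h8 G p t q e ≤ hI G p t q I e := fun I => ciInf_le bh I
  refine ⟨fun I => ⟨(hf I).1, f1 I, (hw I).1, (hw I).2, w1 I, (hh I).1, (hh I).2, h1 I⟩,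
    (hf ∅).1.trans (f1 ∅), ciSup_le fun I => (hf I).2, le_ciInf fun I => (hw I).1,
    (w1 ∅).trans (hw ∅).2, le_ciInf fun I => (hh I).1, (h1 ∅).trans (hh ∅).2⟩

end Pool.Agent.Helper22.UQ
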