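import Pool.Agent.Helper1.UQ.St1

/-!
Project UQ, module MIX: almost independence of far apart edges.
-/

set_option autoImplicit false

open Finset

namespace Pool.Agent.Helper22.UQ

open Classical Pool.Agent.Helper30.RCU Pool.Agent.Helper1.UQ

universe u

lemma nt_insert {ι : Type u} (a : ι) (T ω : Finset ι) :
    nt (insert a T) ω = (1 - oe a ω) * nt T ω := by
  unfold nt oe
  by_cases h1 : a ∈ ω
  · have h2 : ¬ Disjoint ω (insert a T) := by
      rw [Finset.not_disjoint_iff]
      exact ⟨a, h1, mem_insert_self _ _⟩
    simp [h1, h2]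
  · have h2 : Disjoint ω (insert a T) ↔ Disjoint ω T := by
      rw [Finset.disjoint_insert_right]
      exact ⟨fun h => h.2, fun h => ⟨h1, h⟩⟩
    simp [h1, h2]

lemma nt_nonneg {ι : Type u} (T ω : Finset ι) : 0 ≤ nt T ω := by
  unfold nt; split_ifs <;> norm_num

lemma nt_le_one {ι : Type u} (T ω : Finset ι) : nt T ω ≤ 1 := by
  unfold nt; split_ifs <;> norm_num

lemma nt_inter {ι : Type u} {T C : Finset ι} (h : T ⊆ C) (ω : Finset ι) :
    nt T ω = nt T (ω ∩ C) := by
  unfold nt
  congr 1
  refine propext ⟨fun h1 => h1.mono_left inter_subset_left, fun h1 => ?_⟩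
  rw [Finset.disjoint_left] at h1 ⊢
  intro a ha hT
  exact h1 (mem_inter.mpr ⟨ha, h hT⟩) hT

theorem hMIX (hCND : StCND.{u}) : StMIX.{u} := by
  intro V V' ι φ p q hp hp1 hq E k e B σ alow aup ha0 hal ha1 hall
  have hx0 : ∀ T, 0 ≤ cl φ p q E T := fun T => ex_nonneg hp hp1 hq E (nt_nonneg T)
  have main : ∀ j ≤ k, cl φ p q E ((Finset.range j).image e) ≤ aup ^ j + j * (aup - alow) := by
    intro j
    induction j with
    | zero =>
      intro _
      have h1 : cl φ p q E ((Finset.range 0).image e) = 1 := by
        have h2 : nt ((Finset.range 0).image e) = fun _ : Finset ι => (1 : ℝ) := by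
          funext ω; simp [nt]
        unfold cl
        rw [h2]
        exact ex_const hp hp1 hq E 1
      rw [h1]
      simp
    | succ j ih =>
      intro hj
      have hjk : j < k := by omega
      have ih' := ih (by omega)
      obtain ⟨b1, b2, b3, b4, b5, b6⟩ := hall j hjk
      have hT : (Finset.range (j + 1)).image e = insert (e j) ((Finset.range j).image e) := by
        rw [Finset.range_add_one, Finset.image_insert]
      obtain ⟨T, hTd⟩ : ∃ T, T = (Finset.range j).image e := ⟨_, rfl⟩
      rw [hT]
      rw [← hTd] at ih' ⊢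
      have hTC : T ⊆ E \ B j := by
        intro a ha
        rw [hTd, mem_image] at ha
        obtain ⟨i, hi, rfl⟩ := ha
        rw [mem_range] at hi
        have hik : i < k := by omega
        obtain ⟨c1, c2, -⟩ := hall i hik
        exact mem_sdiff.mpr ⟨c2 c1, b6 i hik (by omega)⟩
      have hcnd := hCND V V' ι φ (σ j) p q hp hp1 hq (B j) (E \ B j) disjoint_sdiff b3 (e j) b1
        (fun ω => 1 - nt T ω) (fun ω => sub_nonneg.mpr (nt_le_one T ω))
        (fun ω => by rw [← nt_inter hTC])
      rw [union_sdiff_of_subset b2] at hcnd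
      have h1 : ex φ p q E (fun ω => 1 - nt T ω) = 1 - cl φ p q E T := by
        rw [ex_sub, ex_const hp hp1 hq]; rfl
      have h2 : ex φ p q E (fun ω => (1 - oe (e j) ω) * (1 - nt T ω))
          = ex φ p q E (fun ω => 1 - oe (e j) ω) - cl φ p q E (insert (e j) T) := by
        have h3 : (fun ω : Finset ι => (1 - oe (e j) ω) * (1 - nt T ω))
            = fun ω => (1 - oe (e j) ω) - nt (insert (e j) T) ω := by
          funext ω; rw [nt_insert]; ring
        rw [h3, ex_sub]; rfl
      rw [h1, h2] at hcnd
      have hxT := hx0 T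
      have hxle : cl φ p q E T ≤ 1 := by
        have := ex_le (φ := φ) hp hp1 hq E (nt_le_one T)
        rw [ex_const hp hp1 hq] at this
        exact this
      have h4 : alow * (1 - cl φ p q E T) ≤
          ex (cm φ (σ j)) p q (B j) (fun ω => 1 - oe (e j) ω) * (1 - cl φ p q E T) :=
        mul_le_mul_of_nonneg_right b4 (by linarith)
      have h5 : alow * cl φ p q E T ≤ aup * cl φ p q E T := mul_le_mul_of_nonneg_right hal hxT
      have haup0 : 0 ≤ aup := by linarith
      have h6 := mul_le_mul_of_nonneg_left ih' haup0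
      have h7 : aup * ((j : ℝ) * (aup - alow)) ≤ (j : ℝ) * (aup - alow) := by
        have : 0 ≤ (j : ℝ) * (aup - alow) := by
          have := sub_nonneg.mpr hal
          positivity
        nlinarith
      rw [pow_succ]
      push_cast
      have h8 : aup * (aup ^ j + (j : ℝ) * (aup - alow))
        = aup ^ j * aup + aup * ((j : ℝ) * (aup - alow)) := by ring
      rw [h8] at h6
      linarith
  exact main k le_rfl

end Pool.Agent.Helper22.UQ
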